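import Mathlib

set_option autoImplicit false

namespace Pool.Agent.Results.MP_4d4a97_an.ClosedUnderIntegration

open Set MeasureTheory Cardinal

/-- `InR a b f D g`: the function `g` with domain `D` lies in the smallest set of functions that
contains the `f i` (with domain `(a,b)`) and is closed under rational combinations and
composition. -/
inductive InR (a b : ℝ) {n : ℕ} (f : Fin n → ℝ → ℝ) : Set ℝ → (ℝ → ℝ) → Prop
  | base (i : Fin n) : InR a b f (Ioo a b) (f i)
  | rat (m : ℕ) (D : Fin m → Set ℝ) (g : Fin m → ℝ → ℝ) (P Q : MvPolynomial (Fin m) ℝ)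
      (h : ∀ j, InR a b f (D j) (g j)) :
      InR a b f {x | x ∈ Ioo a b ∧ (∀ j, x ∈ D j) ∧ MvPolynomial.eval (fun j => g j x) Q ≠ 0}
        (fun x => MvPolynomial.eval (fun j => g j x) P / MvPolynomial.eval (fun j => g j x) Q)
  | comp (D E : Set ℝ) (h k : ℝ → ℝ) (hh : InR a b f D h) (hk : InR a b f E k) :
      InR a b f {x | x ∈ E ∧ k x ∈ D} (h ∘ k)

/-- Interleaving of two binary sequences. -/
def mix (u v : ℕ → Bool) (n : ℕ) : Bool := if n % 2 = 0 then u (n / 2) else v (n / 2)

theorem mix_inj {u v u' v' : ℕ → Bool} (h : mix u v = mix u' v') : u = u' ∧ v = v' := by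
  constructor
  · funext n
    have := congrFun h (2 * n)
    simpa [mix] using this
  · funext n
    have := congrFun h (2 * n + 1)
    have e : (2 * n + 1) / 2 = n := by omega
    simpa [mix, e] using this

theorem mix_add (u v : ℕ → Bool) : cantorFunction (1 / 3) (mix u v) =
    cantorFunction (1 / 3) (mix u fun _ => false) +
      cantorFunction (1 / 3) (mix (fun _ => false) v) := by
  unfold cantorFunction
  rw [← Summable.tsum_add (summable_cantor_function _ (by norm_num) (by norm_num))
    (summable_cantor_function _ (by norm_num) (by norm_num))]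
  congr 1
  funext n
  unfold cantorFunctionAux mix
  split_ifs <;> simp

theorem bound (u : ℕ → Bool) : cantorFunction (1 / 3) u ∈ Icc (0 : ℝ) (3 / 2) := by
  constructor
  · exact tsum_nonneg fun n => cantorFunctionAux_nonneg (by norm_num)
  · have := cantorFunction_le (c := 1 / 3) (f := u) (g := fun _ => true) (by norm_num)
      (by norm_num) (by simp)
    refine this.trans (le_of_eq ?_)
    unfold cantorFunction
    simp only [cantorFunctionAux, cond_true]
    rw [tsum_geometric_of_lt_one (by norm_num) (by norm_num)]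
    norm_num

theorem null : volume (range (cantorFunction (1 / 3))) = 0 := by
  set N := range (cantorFunction (1 / 3)) with hN
  have hfin : volume N ≠ ⊤ := by
    refine ne_top_of_le_ne_top (b := volume (Icc (0 : ℝ) (3 / 2))) (by simp) (measure_mono ?_)
    rintro _ ⟨u, rfl⟩
    exact bound u
  have hsub : N ⊆ (((3 : ℝ) • ·) ⁻¹' N) ∪ ((fun y => y + (-1)) ⁻¹' (((3 : ℝ) • ·) ⁻¹' N)) := by
    rintro _ ⟨u, rfl⟩
    rw [cantorFunction_succ u (by norm_num) (by norm_num)]
    cases u 0
    · left
      exact ⟨fun n => u (n + 1), by simp⟩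
    · right
      exact ⟨fun n => u (n + 1), by simp⟩
  have h1 := (measure_mono (μ := volume) hsub).trans (measure_union_le _ _)
  rw [measure_preimage_add_right, Measure.addHaar_preimage_smul _ (by norm_num)] at h1
  lift volume N to NNReal using hfin with t ht
  simp only [Module.finrank_self, pow_one] at h1
  rw [abs_of_pos (by norm_num), ENNReal.ofReal, ← ENNReal.coe_mul, ← ENNReal.coe_add,
    ENNReal.coe_le_coe, ← NNReal.coe_le_coe] at h1
  simp only [NNReal.coe_add, NNReal.coe_mul, Real.coe_toNNReal'] at h1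
  rw [max_eq_left (by norm_num)] at h1
  have : (t : ℝ) = 0 := le_antisymm (by linarith) t.2
  exact_mod_cast this

theorem meas : Measurable fun u : ℕ → Bool => cantorFunction (1 / 3) (mix u fun _ => false) := by
  refine Continuous.measurable ?_
  unfold cantorFunction
  refine continuous_tsum (u := fun n => (1 / 3 : ℝ) ^ n) (fun n => ?_)
    (summable_geometric_of_lt_one (by norm_num) (by norm_num)) fun n u => ?_
  · unfold cantorFunctionAux mix
    split_ifs
    · exact (continuous_of_discreteTopology (f := fun b : Bool => cond b ((1 / 3 : ℝ) ^ n) 0)).comp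
        (continuous_apply _)
    · exact continuous_const
  · unfold cantorFunctionAux
    cases mix u (fun _ => false) n <;> simp

theorem code : Nonempty (C(ℝ, ℝ) ↪ (ℕ → Bool)) := by
  rw [← Cardinal.le_def]
  have h : Function.Injective fun (F : C(ℝ, ℝ)) (q : ℚ) => F q := by
    intro F G h
    ext x
    exact congrFun (Rat.denseRange_cast.equalizer F.continuous G.continuous (funext fun q =>
      congrFun h q)) x
  refine (Cardinal.mk_le_of_injective h).trans (le_of_eq ?_)
  simp [Cardinal.mk_real]

theorem result :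
    ∃ (a b : ℝ) (n : ℕ) (f : Fin n → ℝ → ℝ), a < b ∧ (∀ i, IntegrableOn (f i) (Ioo a b)) ∧
      ∀ (D : Set ℝ) (g : ℝ → ℝ), InR a b f D g → ∀ α β : ℝ, a ≤ α → α < β → β ≤ b →
        IntegrableOn g (Ioo α β) →
        ∃ (E : Set ℝ) (h : ℝ → ℝ), InR a b f E h ∧ Ioo α β ⊆ E ∧
          ∀ x ∈ Ioo α β, h x = ∫ t in α..x, g t := by
  classical
  obtain ⟨c⟩ := code
  let e : ℝ ≃ᵐ (ℕ → Bool) := PolishSpace.measurableEquivNatBoolOfNotCountable
    (not_countable_iff.2 inferInstance)
  let f1 : ℝ → ℝ := fun x => cantorFunction (1 / 3) (mix (e x) fun _ => false)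
  let f2 : ℝ → ℝ := fun y =>
    if h : ∃ p : ℝ × C(ℝ, ℝ), y = cantorFunction (1 / 3) (mix (e p.1) (c p.2)) then
      h.choose.2 h.choose.1 else 0
  have hf2 : ∀ (x : ℝ) (F : C(ℝ, ℝ)), f2 (cantorFunction (1 / 3) (mix (e x) (c F))) = F x := by
    intro x F
    have h : ∃ p : ℝ × C(ℝ, ℝ), cantorFunction (1 / 3) (mix (e x) (c F)) =
        cantorFunction (1 / 3) (mix (e p.1) (c p.2)) := ⟨(x, F), rfl⟩
    simp only [f2, dif_pos h]
    obtain ⟨h1, h2⟩ := mix_inj (cantorFunction_injective (by norm_num) (by norm_num) h.choose_spec)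
    rw [← e.injective h1, ← c.injective h2]
  refine ⟨-1, 2, 2, ![f1, f2], by norm_num, ?_, ?_⟩
  · intro i
    fin_cases i
    · refine Measure.integrableOn_of_bounded (M := 3 / 2) (by simp)
        (meas.comp e.measurable).aestronglyMeasurable (Filter.Eventually.of_forall fun x => ?_)
      obtain ⟨h1, h2⟩ := bound (mix (e x) fun _ => false)
      rw [Real.norm_eq_abs, abs_le]
      exact ⟨by simp only [f1, Matrix.cons_val_zero, Fin.zero_eta]; linarith, h2⟩
    · refine Integrable.integrableOn ((integrable_zero ℝ ℝ volume).congr ?_)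
      refine measure_mono_null ?_ null
      intro y hy
      by_contra hn
      apply hy
      have : ¬ ∃ p : ℝ × C(ℝ, ℝ), y = cantorFunction (1 / 3) (mix (e p.1) (c p.2)) :=
        fun ⟨p, hp⟩ => hn ⟨_, hp.symm⟩
      change (0 : ℝ) = f2 y
      simp only [f2, dif_neg this]
  · intro D g _ α β ha hab hb hg
    have hi : Integrable ((Ioo α β).indicator g) := (integrable_indicator_iff measurableSet_Ioo).2 hg
    let F : C(ℝ, ℝ) := ⟨fun x => ∫ t in α..x, (Ioo α β).indicator g t,
      intervalIntegral.continuous_primitive (fun _ _ => hi.intervalIntegrable) α⟩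
    let t : ℝ := cantorFunction (1 / 3) (mix (fun _ => false) (c F))
    have r1 := InR.rat (a := -1) (b := 2) (f := ![f1, f2]) 1 (fun _ => Ioo (-1) 2) (fun _ => f1)
      (MvPolynomial.X 0 + MvPolynomial.C t) 1 (fun _ => InR.base (f := ![f1, f2]) 0)
    have r2 := InR.comp _ _ _ _ (InR.base (a := -1) (b := 2) (f := ![f1, f2]) 1) r1
    have hv : ∀ x, f1 x + t = cantorFunction (1 / 3) (mix (e x) (c F)) := fun x =>
      (mix_add _ _).symm
    refine ⟨_, _, r2, fun x hx => ?_, fun x hx => ?_⟩
    · have hx' : x ∈ Ioo (-1 : ℝ) 2 := ⟨by linarith [hx.1], by linarith [hx.2]⟩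
      obtain ⟨h1, h2⟩ := bound (mix (e x) (c F))
      refine ⟨⟨hx', fun _ => hx', by simp⟩, ?_⟩
      simp only [map_add, MvPolynomial.eval_X, MvPolynomial.eval_C, map_one, div_one, hv]
      exact ⟨by linarith, by linarith⟩
    · simp only [Function.comp, map_add, MvPolynomial.eval_X, MvPolynomial.eval_C, map_one,
        div_one, hv, Matrix.cons_val_one, Matrix.cons_val_zero, hf2]
      change ∫ t in α..x, (Ioo α β).indicator g t = _
      rw [intervalIntegral.integral_of_le hx.1.le, intervalIntegral.integral_of_le hx.1.le]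
      refine setIntegral_congr_fun measurableSet_Ioc fun s hs => ?_
      exact indicator_of_mem (show s ∈ Ioo α β from ⟨hs.1, hs.2.trans_lt hx.2⟩) g

end Pool.Agent.Results.MP_4d4a97_an.ClosedUnderIntegration
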